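import Pool.Agent.H37.CND.Stmts

/-!
# Board `cnd`, row ELA
-/

set_option autoImplicit false

namespace Pool.CND

theorem ela_thm (h1 : S_ELG) (h2 : S_CMB) : S_ELA := by
  intro p G _ _ b A l hp hUM hHB hEA hL
  obtain ⟨g, hg, hg1, hbl⟩ := hL.mem
  obtain ⟨N, hNA, hgN, hcard⟩ := h1 p G A hp hEA g hg hg1
  have hnorm : ∀ x ∈ A, ∀ n ∈ N, x * n * x⁻¹ ∈ N := by
    intro x hx n hn
    rw [hEA.2 x hx n (hNA hn), mul_inv_cancel_right]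
    exact hn
  obtain ⟨B, hB, hs⟩ := hHB N A hNA le_rfl hcard hnorm
  exact ⟨B, hB, (h2 p G b N A B l hp hUM hNA hcard hs hL).2 ⟨g, hg, hgN, hbl⟩⟩

end Pool.CND
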